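import Pool.Agent.Helper38.TH.Goals4
import Pool.Agent.Helper54.M3.QSML

/-!
# Project TH (MP_fc6b1e_nt, T100), packet G4_SML: the small moduli, case (b)

Adaptation of `Pool/Agent/Helper54/M3/QSML.lean`.
-/

set_option autoImplicit false

namespace Pool.Agent.Helper13.TH.G4SML

open Finset Pool.Agent.Helper17.PP Pool.Agent.Helper17.PP0 Pool.Agent.Helper17.PP2
open Pool.Agent.Helper11.M3 Pool.Agent.Helper38.TH
open Pool.Agent.Helper17.PP0.SML (AA ff AA_nonneg AA_le ff_nonneg ff_le AA_congr ff_congr N_pos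
  nm_pos le_nm nm_lt mem_upto mem_below mem_blk bl_pos N_lt le_N log_bd filter_le Good HH
  HH_nonneg stepC)
open Pool.Agent.Helper54.M3.QSML (HS stepD Dsum TT fib_le card_fib piv_sum_le)

section final

variable {p : ℕ} [Fact p.Prime] {B B₀ k U Λ C : Type} [Field k] [Fintype k] [Algebra (ZMod p) k]
    [AddCommGroup U] [Module k U] [Fintype U] [AddCommGroup Λ] [Module k Λ] [Fintype Λ]
    [AddCommGroup C] (S : Sys p B B₀ k U Λ C)

open Classical in
lemma ful_le (hlab : C_LAB) (hpsm : G4_PSM) (ψ : AddChar k ℂ) (I : ℕ)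
    (P b : Finset B) (q P₁ : B) (t : k) (hbP : b ⊆ P) (hwv : Wv S b q) (hP₁ : P₁ ∈ b)
    (hne : P₁ ≠ q) (hlow : ∀ q'' ∈ b, S.spl q'' → S.bl q'' < S.bl q → q'' ≠ P₁) :
    ‖ful₄ S ψ P b q P₁ t 0 0 (HA S I b q P₁)‖ ≤
      ∑ D ∈ (sp S b q P₁).powerset, ∑ χ : AddChar Λ ℂ,
        if S.nm D < 2 ^ (2 * I) ∧ (D.Nonempty ∨ χ ≠ 1) then TT S ψ P b q D χ else 0 := by
  refine (hpsm p B B₀ k U Λ C S ψ I P b q P₁ t hbP hwv hP₁ hne).trans ?_
  rw [Finset.mul_sum, Finset.sum_comm (s := (sp S b q P₁).powerset)]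
  refine Finset.sum_le_sum fun χ _ => ?_
  refine card_fib _ (fun y : B → k ↦ (sp S b q P₁).filter fun q' ↦ y q' ≠ 0) _
    (fun y _ => mem_powerset.2 (filter_subset _ _)) _ _ fun D hD => ?_
  convert fib_le S hlab ψ I P b q P₁ hbP hlow D (mem_powerset.1 hD) χ

open Classical in
lemma stepA (hlab : C_LAB) (hpsm : G4_PSM) (ψ : AddChar k ℂ) (N : B → Prop)
    (hcas : (∀ q, N q ∧ S.spl q) ∨ (∀ q, N q → ¬ S.spl q)) (j I : ℕ) (t : k) (X : ℝ)
    (P b : Finset B)
    (hbP : b ⊆ P) (hFam : S.Fam b) (q : B) (hwv : Wv S b q) (hj : S.bl q = j)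
    (P₁ : B) (hpiv : Piv S N b P₁) (hne : P₁ ≠ q) :
    ‖ful₄ S ψ P b q P₁ t 0 0 (HA S I b q P₁)‖ * Real.exp (-(S.nm b / X)) ≤
      ∑ D ∈ (b.erase q).powerset, HH S ψ j (2 * I) X P q D ((b.erase q) \ D) := by
  have hq : q ∈ b := hwv.mem
  have hlow : ∀ q'' ∈ b, S.spl q'' → S.bl q'' < S.bl q → q'' ≠ P₁ := by
    intro q'' hq'' hs hlt heq
    rcases hcas with h | h
    · have h1 := hpiv.top q hq (h q).1 hne.symm
      rw [heq] at hlt
      omega
    · rw [heq] at hs
      exact h P₁ hpiv.isN hs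
  have hspb : sp S b q P₁ ⊆ b.erase q := by
    unfold sp
    exact (filter_subset _ _).trans (erase_subset _ _)
  have h1 := mul_le_mul_of_nonneg_right
    (ful_le S hlab hpsm ψ I P b q P₁ t hbP hwv hpiv.mem hne hlow)
    (Real.exp_nonneg (-((S.nm b : ℝ) / X)))
  refine h1.trans ?_
  rw [Finset.sum_mul]
  refine le_trans (Finset.sum_le_sum (g := fun D =>
      HH S ψ j (2 * I) X P q D ((b.erase q) \ D)) ?_)
    (Finset.sum_le_sum_of_subset_of_nonneg (Finset.powerset_mono.2 hspb)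
      fun D _ _ => HH_nonneg S ψ j (2 * I) X P q D _)
  intro D hD
  rw [mem_powerset] at hD
  have hDb : D ⊆ b.erase q := hD.trans hspb
  by_cases hnD : S.nm D < 2 ^ (2 * I)
  swap
  · rw [Finset.sum_eq_zero]
    · rw [zero_mul]; exact HH_nonneg S ψ j (2 * I) X P q D _
    · intro χ _
      rw [if_neg]
      exact fun h => hnD h.1
  have hgood : Good S (2 * I) D := by
    refine ⟨fun q' hq' => ?_, ?_, hnD⟩
    · have h2 := hD hq'
      unfold sp at h2
      rw [mem_filter] at h2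
      exact h2.2
    · refine hFam.1.mono ?_
      intro x hx
      exact (erase_subset _ _) (hDb hx)
  unfold HH
  rw [if_pos ⟨hj, hgood⟩, Finset.sum_filter, Finset.sum_mul]
  refine Finset.sum_le_sum fun χ _ => ?_
  by_cases hc : D.Nonempty ∨ χ ≠ 1
  swap
  · rw [if_neg (fun h => hc h.2), if_neg hc, zero_mul]
  rw [if_pos ⟨hnD, hc⟩, if_pos hc]
  have hnm : (S.nm b : ℝ) = (S.N q : ℝ) * S.nm D * S.nm ((b.erase q) \ D) := by
    have h2 : S.nm b = S.N q * S.nm D * S.nm ((b.erase q) \ D) := by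
      unfold Sys.nm
      rw [← Finset.mul_prod_erase b _ hq, mul_assoc, mul_comm (∏ q ∈ D, S.N q),
        Finset.prod_sdiff hDb]
    exact_mod_cast h2
  rw [hnm]
  unfold TT
  rw [mul_assoc, Finset.sum_mul, hj]
  have hQ1 : (1 : ℝ) ≤ Fintype.card k := by
    exact_mod_cast Fintype.card_pos
  have h3 : ∑ y ∈ lab k P, AA S ψ D χ y * (∏ q'' ∈ (b.erase q) \ D, ff S ψ j D χ y q'') *
        Real.exp (-((S.N q : ℝ) * S.nm D * S.nm ((b.erase q) \ D) / X)) =
      ∑ y ∈ lab k P, AA S ψ D χ y * ((∏ q'' ∈ (b.erase q) \ D, ff S ψ j D χ y q'') *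
        Real.exp (-((S.N q : ℝ) * S.nm D * S.nm ((b.erase q) \ D) / X))) :=
    Finset.sum_congr rfl fun y _ => by ring
  rw [h3]
  refine mul_le_mul_of_nonneg_right ?_ ?_
  · refine div_le_div_of_nonneg_right ?_ (Nat.cast_nonneg _)
    refine mul_le_mul_of_nonneg_right ?_ (by positivity)
    exact le_mul_of_one_le_right (Nat.cast_nonneg _) hQ1
  · refine Finset.sum_nonneg fun y _ => mul_nonneg (AA_nonneg S ψ D χ y) (mul_nonneg ?_ ?_)
    · exact Finset.prod_nonneg fun q _ => ff_nonneg S ψ _ D χ y q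
    · exact Real.exp_nonneg _

open Classical in
theorem g4sml (hlab : C_LAB) (hdec : C_DEC) (hpsm : G4_PSM) : G4_SML := by
  intro p _ B B₀ k U Λ C _ _ _ _ _ _ _ _ _ _ _ S ψ e N g K hyp
  have H : HS S ψ g K := { hyp.toHyp₄.toHypW with sm := hyp.toHyp₄.sm }
  have hcas : (∀ q, N q ∧ S.spl q) ∨ (∀ q, N q → ¬ S.spl q) := by
    exact Or.inr hyp.nspl
  set c0 : ℝ := Fintype.card Λ * Fintype.card U * Fintype.card k * K ^ 3 * Real.exp K *
    Real.exp (Fintype.card k * K) with hc0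
  refine ⟨max ⌈c0⌉₊ (K + Fintype.card k * K), ?_⟩
  intro I' j t X P hj hX
  set K' := max ⌈c0⌉₊ (K + Fintype.card k * K) with hK'
  obtain ⟨I, hI⟩ : ∃ I : ℕ, I = 2 * I' := ⟨_, rfl⟩
  have hIc : (2 * (I' : ℝ) + 2) = (I : ℝ) + 2 := by rw [hI]; push_cast; ring
  rw [hIc, ← hI]
  set m : ℝ := min 1 (X / 2 ^ j) with hm
  set M : ℝ := ((max 1 (min j (lg X - (j + 1 + I))) : ℕ) : ℝ) ^ (-(1 / K : ℝ)) with hM
  have hgX : 1 ≤ g X := H.g_one _
  have hm0 : 0 ≤ m := le_min zero_le_one (by positivity)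
  have hM0 : 0 ≤ M := by rw [hM]; positivity
  have hX0 : 0 < X := by linarith
  have hj0 : (0 : ℝ) < j := by exact_mod_cast hj
  have hI0 : (0 : ℝ) ≤ I := Nat.cast_nonneg _
  -- steps A, B
  have hAB : ∑ b ∈ P.powerset with S.Fam b, ∑ q ∈ b with (Wv S b q ∧ S.bl q = j),
      ∑ P₁ ∈ b with (Piv S N b P₁ ∧ P₁ ≠ q),
        ‖ful₄ S ψ P b q P₁ t 0 0 (HA S I' b q P₁)‖ * Real.exp (-(S.nm b / X)) ≤
      ∑ b ∈ P.powerset, ∑ q ∈ b, ∑ D ∈ (b.erase q).powerset,
        HH S ψ j I X P q D ((b.erase q) \ D) := by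
    refine filter_le _ _ _ _ (fun b hb hFam => ?_) (fun b _ => ?_)
    · refine filter_le _ _ _ _ (fun q hq hWt => ?_) (fun q _ => ?_)
      · refine piv_sum_le S N b q _ _
          (Finset.sum_nonneg fun D _ => HH_nonneg S ψ j I X P q D _) ?_
        intro P₁ _ hpiv hne
        rw [hI]
        exact stepA S hlab hpsm ψ N hcas j I' t X P b (mem_powerset.1 hb) hFam q hWt.1 hWt.2
          P₁ hpiv hne
      · exact Finset.sum_nonneg fun D _ => HH_nonneg S ψ j I X P q D _
    · exact Finset.sum_nonneg fun q _ => Finset.sum_nonneg fun D _ => HH_nonneg S ψ j I X P q D _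
  refine hAB.trans ?_
  refine (stepC hdec P (fun q D r => HH S ψ j I X P q D r)
    (fun q D r => HH_nonneg S ψ j I X P q D r)).trans ?_
  -- step E
  set W : ℝ := Fintype.card Λ * Fintype.card U * Fintype.card k * K ^ 2 * Real.exp K *
    ((I : ℝ) + 2) ^ K * m * M * (X * g X) with hW
  have hW0 : 0 ≤ W := by rw [hW]; positivity
  have hE : ∑ q ∈ P, ∑ D ∈ P.powerset, ∑ r ∈ P.powerset, HH S ψ j I X P q D r ≤
      ∑ q ∈ S.blk j, ∑ D ∈ (S.below I).powerset,
        W * (1 / S.N q) * ((Fintype.card k : ℝ) ^ D.card / S.nm D) := by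
    have h1 : ∀ q D, ∑ r ∈ P.powerset, HH S ψ j I X P q D r ≤
        if S.bl q = j ∧ Good S I D then
          W * (1 / S.N q) * ((Fintype.card k : ℝ) ^ D.card / S.nm D) else 0 := by
      intro q D
      by_cases hqD : S.bl q = j ∧ Good S I D
      · rw [if_pos hqD]
        refine (stepD S hlab H hX P q hqD.1 D hqD.2).trans (le_of_eq ?_)
        rw [hW]
        have hN : (S.N q : ℝ) ≠ 0 := by
          have := N_pos S q
          positivity
        have hn : (S.nm D : ℝ) ≠ 0 := by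
          have := nm_pos S D
          positivity
        rw [← hm, ← hM]
        field_simp
      · rw [if_neg hqD]
        refine le_of_eq (Finset.sum_eq_zero fun r _ => ?_)
        unfold HH
        rw [if_neg hqD]
    have h2 : ∀ q D, 0 ≤ W * (1 / S.N q) * ((Fintype.card k : ℝ) ^ D.card / S.nm D) := by
      intro q D; positivity
    calc _ ≤ ∑ q ∈ P, ∑ D ∈ P.powerset, (if S.bl q = j ∧ Good S I D then
          W * (1 / S.N q) * ((Fintype.card k : ℝ) ^ D.card / S.nm D) else 0) :=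
          Finset.sum_le_sum fun q _ => Finset.sum_le_sum fun D _ => h1 q D
      _ ≤ ∑ q ∈ P with S.bl q = j, ∑ D ∈ P.powerset with Good S I D,
          W * (1 / S.N q) * ((Fintype.card k : ℝ) ^ D.card / S.nm D) := by
          rw [Finset.sum_filter]
          refine Finset.sum_le_sum fun q _ => ?_
          by_cases hq : S.bl q = j
          · rw [if_pos hq, Finset.sum_filter]
            refine Finset.sum_le_sum fun D _ => ?_
            simp only [hq, true_and]
            exact le_rfl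
          · rw [if_neg hq]
            refine le_of_eq (Finset.sum_eq_zero fun D _ => ?_)
            rw [if_neg (fun h => hq h.1)]
      _ ≤ _ := by
          refine le_trans (Finset.sum_le_sum (g := fun q => ∑ D ∈ (S.below I).powerset,
            W * (1 / S.N q) * ((Fintype.card k : ℝ) ^ D.card / S.nm D)) ?_)
            (Finset.sum_le_sum_of_subset_of_nonneg ?_ ?_)
          · intro q _
            refine Finset.sum_le_sum_of_subset_of_nonneg ?_ fun D _ _ => h2 q D
            intro D hD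
            rw [mem_filter] at hD
            rw [mem_powerset]
            intro q' hq'
            rw [mem_below]
            have h3 : S.N q' < 2 ^ I := lt_of_le_of_lt (le_nm S hq') hD.2.2.2
            unfold Sys.bl
            exact Nat.log_lt_of_lt_pow (N_pos S q').ne' h3
          · intro q hq
            rw [mem_filter] at hq
            rw [mem_blk]; exact hq.2
          · intro q _ _
            exact Finset.sum_nonneg fun D _ => h2 q D
  refine hE.trans ?_
  have hF : ∑ q ∈ S.blk j, ∑ D ∈ (S.below I).powerset,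
        W * (1 / S.N q) * ((Fintype.card k : ℝ) ^ D.card / S.nm D) =
      W * ((∑ q ∈ S.blk j, (1 : ℝ) / S.N q) *
        ∑ D ∈ (S.below I).powerset, (Fintype.card k : ℝ) ^ D.card / S.nm D) := by
    rw [Finset.sum_mul_sum, Finset.mul_sum]
    refine Finset.sum_congr rfl fun q _ => ?_
    rw [Finset.mul_sum]
    exact Finset.sum_congr rfl fun D _ => by ring
  rw [hF]
  have hche := H.che j hj
  have hD := Dsum hdec H I
  have hK0 : (0 : ℝ) ≤ K := Nat.cast_nonneg _
  have hprod : (∑ q ∈ S.blk j, (1 : ℝ) / S.N q) *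
        ∑ D ∈ (S.below I).powerset, (Fintype.card k : ℝ) ^ D.card / S.nm D ≤
      (K / j) * (Real.exp (Fintype.card k * K) * ((I : ℝ) + 2) ^ (Fintype.card k * K)) :=
    mul_le_mul hche hD (Finset.sum_nonneg fun D _ => by positivity) (by positivity)
  refine (mul_le_mul_of_nonneg_left hprod hW0).trans ?_
  have hc0K : c0 ≤ K' := by
    refine (Nat.le_ceil c0).trans ?_
    rw [hK']
    exact_mod_cast le_max_left _ _
  have hpow : ((I : ℝ) + 2) ^ (K + Fintype.card k * K) ≤ ((I : ℝ) + 2) ^ K' :=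
    pow_le_pow_right₀ (by linarith) (le_max_right _ _)
  have hc00 : 0 ≤ c0 := by rw [hc0]; positivity
  calc W * ((K / j) * (Real.exp (Fintype.card k * K) * ((I : ℝ) + 2) ^ (Fintype.card k * K)))
      = (c0 * ((I : ℝ) + 2) ^ (K + Fintype.card k * K)) * (1 / j * m * M * (X * g X)) := by
        rw [hW, hc0, pow_add]; ring
    _ ≤ (K' * ((I : ℝ) + 2) ^ K') * (1 / j * m * M * (X * g X)) := by
        refine mul_le_mul_of_nonneg_right ?_ (by positivity)
        exact mul_le_mul hc0K hpow (by positivity) (Nat.cast_nonneg _)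
    _ = _ := by ring

end final

end Pool.Agent.Helper13.TH.G4SML

namespace Pool.Agent.Helper13.TH

open Pool.Agent.Helper17.PP Pool.Agent.Helper38.TH

/-- **G4_SML** from `C_LAB`, `C_DEC`, `G4_PSM`. -/
theorem g4_sml_of (hlab : C_LAB) (hdec : C_DEC) (hpsm : G4_PSM) : G4_SML :=
  G4SML.g4sml hlab hdec hpsm

/-- **G4_SML** from `G4_PSM`. -/
theorem g4_sml (hpsm : G4_PSM) : G4_SML :=
  g4_sml_of Pool.Agent.Helper83.PP.c_lab Pool.Agent.Helper22.PP.c_dec hpsm

end Pool.Agent.Helper13.TH
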