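import Mathlib
import Pool.Agent.Helper63.TH.Goals

set_option autoImplicit false

namespace Pool.Agent.Helper13.TH

open MeasureTheory Set Filter Topology
open Pool.Agent.Helper53.PT
open Pool.Agent.Helper63.TH

theorem ng_mo_half (j : ℕ) : mo (1 / 2) j = ((2 * j).factorial : ℝ) / (2 ^ j * (j.factorial : ℝ)) := by
  have g1 : Real.Gamma (1 / 2) ≠ 0 := (Real.Gamma_pos_of_pos (by norm_num)).ne'
  have g2 : Real.Gamma (1 + 1 / 2) = 1 / 2 * Real.Gamma (1 / 2) := by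
    rw [add_comm, Real.Gamma_add_one (by norm_num)]
  have g3 : (1 : ℝ) - 1 / 2 = 1 / 2 := by norm_num
  have g4 : Real.Gamma (1 / 2) / Real.Gamma (1 + 1 / 2) = 2 := by
    rw [g2]; field_simp
  induction j with
  | zero =>
    unfold mo
    rw [g3]
    have : (1 : ℝ) + (2 * ((0 : ℕ) : ℝ) - 1) * (1 / 2) = 1 / 2 := by norm_num
    rw [this, div_self g1]
    simp
  | succ j ih =>
    unfold mo at ih ⊢
    rw [g3] at ih ⊢
    rw [g4] at ih ⊢
    have e1 : (1 : ℝ) + (2 * ((j + 1 : ℕ) : ℝ) - 1) * (1 / 2) = (1 + (2 * (j : ℝ) - 1) * (1 / 2)) + 1 := by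
      push_cast; ring
    have e2 : (1 : ℝ) + (2 * (j : ℝ) - 1) * (1 / 2) = j + 1 / 2 := by ring
    have e3 : (1 : ℝ) + (2 * (j : ℝ) - 1) * (1 / 2) ≠ 0 := by rw [e2]; positivity
    rw [e1, Real.Gamma_add_one e3, pow_succ]
    have e4 : (1 + (2 * (j : ℝ) - 1) * (1 / 2)) * Real.Gamma (1 + (2 * (j : ℝ) - 1) * (1 / 2)) /
        Real.Gamma (1 / 2) * (2 ^ j * 2) =
        (2 * j + 1) * (Real.Gamma (1 + (2 * (j : ℝ) - 1) * (1 / 2)) / Real.Gamma (1 / 2) * 2 ^ j) := by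
      ring
    rw [e4, ih]
    have e5 : ((2 * (j + 1)).factorial : ℝ) = (2 * j + 2) * ((2 * j + 1) * ((2 * j).factorial : ℝ)) := by
      have : 2 * (j + 1) = (2 * j + 1) + 1 := by ring
      rw [this, Nat.factorial_succ, Nat.factorial_succ]
      push_cast
      ring
    have e6 : ((j + 1).factorial : ℝ) = (j + 1) * (j.factorial : ℝ) := by
      rw [Nat.factorial_succ]; push_cast; ring
    rw [e5, e6]
    have h1 : (j.factorial : ℝ) ≠ 0 := by positivity
    have h2 : ((j : ℝ) + 1) ≠ 0 := by positivity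
    field_simp

theorem ng_mo_cont (j : ℕ) : ContinuousAt (fun θ => mo θ j) (1 / 2) := by
  have hG : ∀ s : ℝ, 0 < s → ContinuousAt Real.Gamma s := by
    intro s hs
    apply (Real.differentiableAt_Gamma _).continuousAt
    intro m
    have : (0 : ℝ) ≤ m := by positivity
    linarith
  unfold mo
  have c1 : ContinuousAt (fun θ : ℝ => Real.Gamma (1 + (2 * (j : ℝ) - 1) * θ)) (1 / 2) := by
    have : ContinuousAt Real.Gamma ((fun θ : ℝ => 1 + (2 * (j : ℝ) - 1) * θ) (1 / 2)) := by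
      apply hG
      have e2 : (1 : ℝ) + (2 * (j : ℝ) - 1) * (1 / 2) = j + 1 / 2 := by ring
      show 0 < (1 : ℝ) + (2 * (j : ℝ) - 1) * (1 / 2)
      rw [e2]; positivity
    exact ContinuousAt.comp (f := fun θ : ℝ => 1 + (2 * (j : ℝ) - 1) * θ) this
      (by fun_prop)
  have c2 : ContinuousAt (fun θ : ℝ => Real.Gamma (1 - θ)) (1 / 2) := by
    have : ContinuousAt Real.Gamma ((fun θ : ℝ => 1 - θ) (1 / 2)) := hG _ (by norm_num)
    exact ContinuousAt.comp (f := fun θ : ℝ => 1 - θ) this (by fun_prop)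
  have c3 : ContinuousAt (fun θ : ℝ => Real.Gamma (1 + θ)) (1 / 2) := by
    have : ContinuousAt Real.Gamma ((fun θ : ℝ => 1 + θ) (1 / 2)) := hG _ (by norm_num)
    exact ContinuousAt.comp (f := fun θ : ℝ => 1 + θ) this (by fun_prop)
  have n2 : Real.Gamma (1 - 1 / 2) ≠ 0 := (Real.Gamma_pos_of_pos (by norm_num)).ne'
  have n3 : Real.Gamma (1 + 1 / 2) ≠ 0 := (Real.Gamma_pos_of_pos (by norm_num)).ne'
  exact (c1.div c2 n2).mul ((c2.div c3 n3).pow j)

theorem ng_m3_cont : ContinuousAt (fun θ => m3 θ) (1 / 2) := by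
  have hG : ∀ s : ℝ, 0 < s → ContinuousAt Real.Gamma s := by
    intro s hs
    apply (Real.differentiableAt_Gamma _).continuousAt
    intro m
    have : (0 : ℝ) ≤ m := by positivity
    linarith
  unfold m3
  have c1 : ContinuousAt (fun θ : ℝ => Real.Gamma (1 + 2 * θ)) (1 / 2) := by
    have : ContinuousAt Real.Gamma ((fun θ : ℝ => 1 + 2 * θ) (1 / 2)) := hG _ (by norm_num)
    exact ContinuousAt.comp (f := fun θ : ℝ => 1 + 2 * θ) this (by fun_prop)
  have c2 : ContinuousAt (fun θ : ℝ => Real.Gamma (1 - θ)) (1 / 2) := by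
    have : ContinuousAt Real.Gamma ((fun θ : ℝ => 1 - θ) (1 / 2)) := hG _ (by norm_num)
    exact ContinuousAt.comp (f := fun θ : ℝ => 1 - θ) this (by fun_prop)
  have c3 : ContinuousAt (fun θ : ℝ => Real.Gamma (1 + θ)) (1 / 2) := by
    have : ContinuousAt Real.Gamma ((fun θ : ℝ => 1 + θ) (1 / 2)) := hG _ (by norm_num)
    exact ContinuousAt.comp (f := fun θ : ℝ => 1 + θ) this (by fun_prop)
  have n2 : Real.Gamma (1 - 1 / 2) ≠ 0 := (Real.Gamma_pos_of_pos (by norm_num)).ne'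
  have n3 : Real.Gamma (1 + 1 / 2) ≠ 0 := (Real.Gamma_pos_of_pos (by norm_num)).ne'
  refine (c1.div c2 n2).mul ((c2.div c3 n3).rpow_const (Or.inl ?_))
  exact div_ne_zero n2 n3

theorem ng_f0_half (x : ℝ) : f0 (1 / 2) x = Real.exp (-(x / 2)) := by
  unfold f0
  rw [Real.exp_eq_exp_ℝ, NormedSpace.exp_eq_tsum_div (𝔸 := ℝ)]
  apply tsum_congr
  intro j
  rw [ng_mo_half]
  have h1 : (j.factorial : ℝ) ≠ 0 := by positivity
  have h2 : ((2 * j).factorial : ℝ) ≠ 0 := by positivity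
  have e : (-(x / 2)) ^ j = (-1) ^ j * x ^ j / 2 ^ j := by
    rw [neg_pow, div_pow]; ring
  rw [e]
  field_simp

theorem ng_f0_tendsto (x : ℝ) (hx : 0 < x) :
    Tendsto (fun θ => f0 θ x) (𝓝[<] (1 / 2)) (𝓝 (Real.exp (-(x / 2)))) := by
  rw [← ng_f0_half]
  unfold f0
  have hmem : Ioo (1 / 4 : ℝ) (1 / 2) ∈ 𝓝[<] (1 / 2 : ℝ) := Ioo_mem_nhdsLT (by norm_num)
  refine tendsto_tsum_of_dominated_convergence
    (bound := fun j : ℕ => (x / 2) ^ j / (j.factorial : ℝ)) ?_ ?_ ?_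
  · exact Real.summable_pow_div_factorial (x / 2)
  · intro j
    have := (ng_mo_cont j).tendsto.mono_left (nhdsWithin_le_nhds (s := Iio (1 / 2)))
    exact (this.div_const _).const_mul _ |>.mul_const _
  · filter_upwards [hmem] with θ hθ j
    have hp := mo_pos (by linarith [hθ.1] : 0 < θ) (by linarith [hθ.2]) j
    have hm := mo_mono (by linarith [hθ.1] : 0 < θ) hθ.2.le le_rfl j
    rw [norm_mul, norm_mul, norm_pow, norm_neg, norm_one, one_pow, one_mul, Real.norm_eq_abs,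
      Real.norm_eq_abs, abs_of_pos (by positivity : 0 < mo θ j / ((2 * j).factorial : ℝ)),
      abs_of_pos (by positivity : 0 < x ^ j)]
    calc mo θ j / ((2 * j).factorial : ℝ) * x ^ j ≤ mo (1 / 2) j / ((2 * j).factorial : ℝ) * x ^ j := by
          gcongr
      _ = (x / 2) ^ j / (j.factorial : ℝ) := by
          rw [ng_mo_half]
          have h1 : (j.factorial : ℝ) ≠ 0 := by positivity
          have h2 : ((2 * j).factorial : ℝ) ≠ 0 := by positivity
          rw [div_pow]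
          field_simp

theorem gNG : GNG := by
  intro hFI θ h0 h1 x hx
  have hmem : Ioo θ (1 / 2 : ℝ) ∈ 𝓝[<] (1 / 2 : ℝ) := Ioo_mem_nhdsLT h1
  have hf := ng_f0_tendsto x hx
  have hL : Tendsto (fun θ' => |f0 θ' x - f0 θ x|) (𝓝[<] (1 / 2))
      (𝓝 |Real.exp (-(x / 2)) - f0 θ x|) := (hf.sub_const _).abs
  have hid : Tendsto (fun θ' : ℝ => θ') (𝓝[<] (1 / 2)) (𝓝 (1 / 2)) := nhdsWithin_le_nhds
  have hm2 := (ng_mo_cont 2).tendsto.mono_left (nhdsWithin_le_nhds (s := Iio (1 / 2 : ℝ)))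
  have hm3 := ng_m3_cont.tendsto.mono_left (nhdsWithin_le_nhds (s := Iio (1 / 2 : ℝ)))
  have h3 : mo (1 / 2) 2 = 3 := by
    rw [ng_mo_half]
    norm_num [Nat.factorial]
  rw [h3] at hm2
  refine ⟨?_, ?_, ?_⟩
  · refine le_of_tendsto_of_tendsto hL ((hm2.sub_const (mo θ 2)).const_mul (x ^ 2 / 24)) ?_
    filter_upwards [hmem] with θ' hθ'
    exact (aLIP (by linarith) hθ'.1.le hθ'.2 hx.le).1
  · refine le_of_tendsto_of_tendsto hL ((hm3.sub_const (m3 θ)).const_mul (0.146 * (x * √x))) ?_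
    filter_upwards [hmem] with θ' hθ'
    exact (aLIP (by linarith) hθ'.1.le hθ'.2 hx.le).2.1
  · refine le_of_tendsto_of_tendsto hL ((hid.sub_const θ).const_mul 16) ?_
    filter_upwards [hmem] with θ' hθ'
    exact (hFI θ θ' h0 hθ'.1.le hθ'.2 x hx).1

end Pool.Agent.Helper13.TH
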